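import Pool.Agent.ANO3.Deg.Basic
import Pool.Agent.ANO5.A2.EqIdx.Inst

/-!
# ANO5, module Idx2: the number of fixed points, abstract form

`T` is a `C¹` map of `X r = ℍ^r × W` all of whose fixed points are nondegenerate with the same
sign; `T₀` is continuous, at bounded distance of `T`, and `{p | dist p (T₀ p) ≤ C}` is contained in
a compact set.  Then the number of fixed points of `T` is the absolute value of the degree of
`x - T₀ x`; if `T₀` has exactly one fixed point and it is nondegenerate then `T` has exactly one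
fixed point.
-/

set_option autoImplicit false
set_option linter.unusedSectionVars false

open Set Filter Topology
open Pool.Agent.SmoothDegree

namespace Pool.Agent.ANO5.A2.Idx2

open Pool.Agent.ANO5.A1 Pool.Agent.ANO.Idx Pool.Agent.ANO3.Deg

variable [Fib] {r : ℕ}

/-- `T` and `T₀` are as in the header. -/
structure Comp (T T₀ : A1.X r → A1.X r) : Prop where
  smooth : ContDiffOn ℝ 1 (loc T) (dom r)
  cont : Continuous T₀
  sign : ∃ σ : ℤ, σ.natAbs = 1 ∧ ∀ q, T q = q →
    (fderiv ℝ (fun x => x - loc T x) (toE q)).det ≠ 0 ∧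
      jacobianSign (fun x => x - loc T x) (toE q) = σ
  near : ∃ C : ℝ, ∀ p, dist (T p) (T₀ p) ≤ C
  bdd : ∀ C : ℝ, ∃ K : Set (A1.X r), IsCompact K ∧ ∀ p, dist p (T₀ p) ≤ C → p ∈ K

private theorem zero_iff_Fix (G : A1.X r → A1.X r) (q : A1.X r) :
    toE q - loc G (toE q) = 0 ↔ G q = q := by
  have h : loc G (toE q) = toE (G q) := by
    show toE (G (ofE (toE q))) = toE (G q)
    rw [Idx.ofE_toE]
  rw [h, sub_eq_zero]
  exact ⟨fun h => (Idx.toE_injective h).symm, fun h => by rw [h]⟩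

/-- the number of fixed points of `T` is the absolute value of the degree of `x - T₀ x` -/
theorem Comp.encard [Nontrivial (A1.E r)] {T T₀ : A1.X r → A1.X r} (h : Comp T T₀)
    {N : Set (A1.E r)} (hN : IsCompact N) (hNd : N ⊆ dom r)
    (hfix : ∀ w, T₀ w = w → toE w ∈ interior N) :
    {q | T q = q}.encard = (deg (fun x => x - loc T₀ x) N).natAbs := by
  obtain ⟨σ, hσ, hs⟩ := h.sign
  obtain ⟨C, hC⟩ := h.near
  obtain ⟨K, hK, hKC⟩ := h.bdd C
  have hNc : IsCompact ((ofE : A1.E r → A1.X r) '' N) :=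
    hN.image_of_continuousOn (Idx.continuousOn_ofE.mono hNd)
  obtain ⟨K', hK', hKK'⟩ := exists_compact_superset (hK.union hNc)
  have hU : IsCompact (toE '' K') := hK'.image Idx.continuous_toE
  have hUd : toE '' K' ⊆ dom r := by
    rintro _ ⟨q, -, rfl⟩
    exact Idx.toE_mem q
  have hint : interior (toE '' K') = toE '' interior K' := (EqIdx.chartX r).interior_image K'
  have hfr : frontier (toE '' K') = toE '' frontier K' := (EqIdx.chartX r).frontier_image hK'
  have hNU : N ⊆ toE '' K' := fun x hx =>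
    ⟨ofE x, interior_subset (hKK' (Or.inr ⟨x, hx, rfl⟩)), Idx.toE_ofE (hNd hx)⟩
  have hsm : ContDiffOn ℝ 1 (fun x => x - loc T x) (dom r) := contDiffOn_id.sub h.smooth
  have hreg : Reg (fun x => x - loc T x) (toE '' K') := by
    rintro _ ⟨q, -, rfl⟩ h0
    exact (hs q ((zero_iff_Fix T q).1 h0)).1
  have hne : ∀ t ∈ Icc (0 : ℝ) 1, ∀ x ∈ frontier (toE '' K'),
      x - toE (Idx.mix t (T (ofE x)) (T₀ (ofE x))) ≠ 0 := by
    intro t ht x hx h0
    rw [hfr] at hx
    obtain ⟨q, hq, rfl⟩ := hx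
    rw [Idx.ofE_toE] at h0
    have h1 : q = Idx.mix t (T q) (T₀ q) := Idx.toE_injective (sub_eq_zero.1 h0)
    have h2 : dist q (T₀ q) ≤ C := by
      calc dist q (T₀ q) = dist (Idx.mix t (T q) (T₀ q)) (T₀ q) := by rw [← h1]
        _ ≤ dist (T q) (T₀ q) := Idx.mix_dist _ _ ht
        _ ≤ C := hC q
    exact hq.2 (hKK' (Or.inl (hKC q h2)))
  have e0 : (fun x => x - toE (Idx.mix 0 (T (ofE x)) (T₀ (ofE x)))) =
      fun x : A1.E r => x - loc T x := by
    funext x
    rw [Idx.mix_zero]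
    rfl
  have e1 : (fun x => x - toE (Idx.mix 1 (T (ofE x)) (T₀ (ofE x)))) =
      fun x : A1.E r => x - loc T₀ x := by
    funext x
    rw [Idx.mix_one]
    rfl
  have hT : Continuous T := (EqIdx.chartX r).continuous_of_loc (by
    rw [EqIdx.chartX_loc, EqIdx.chartX_dom]
    exact h.smooth.continuousOn)
  have hcont : ContinuousOn (fun p : ℝ × A1.E r =>
      p.2 - toE (Idx.mix p.1 (T (ofE p.2)) (T₀ (ofE p.2)))) (Icc 0 1 ×ˢ dom r) := by
    refine continuousOn_snd.sub ?_
    refine Idx.continuous_toE.comp_continuousOn ?_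
    refine Idx.continuous_mix.comp (f := fun p : ℝ × A1.E r =>
      (p.1, T (ofE p.2), T₀ (ofE p.2))) ?_ fun p hp => hp.1
    have h1 : ContinuousOn (fun p : ℝ × A1.E r => (ofE p.2 : A1.X r)) (Icc 0 1 ×ˢ dom r) :=
      Idx.continuousOn_ofE.comp continuousOn_snd fun p hp => hp.2
    exact continuousOn_fst.prodMk ((hT.comp_continuousOn h1).prodMk
      (h.cont.comp_continuousOn h1))
  have hhom := deg_homotopy (F := fun t x => x - toE (Idx.mix t (T (ofE x)) (T₀ (ofE x))))
    hU Idx.isOpen_dom hUd hcont hne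
  rw [e0, e1] at hhom
  have hne0 : ∀ x ∈ frontier (toE '' K'), x - loc T x ≠ 0 := fun x hx => by
    have h1 := hne 0 ⟨le_rfl, zero_le_one⟩ x hx
    rw [Idx.mix_zero] at h1
    exact h1
  have hne1 : ∀ x ∈ frontier (toE '' K'), x - loc T₀ x ≠ 0 := fun x hx => by
    have h1 := hne 1 ⟨zero_le_one, le_rfl⟩ x hx
    rw [Idx.mix_one] at h1
    exact h1
  have hadm : Adm (fun x => x - loc T₀ x) (toE '' K') :=
    ⟨hU, ⟨dom r, Idx.isOpen_dom, hUd, continuousOn_id.sub
      ((Idx.continuous_toE.comp h.cont).comp_continuousOn Idx.continuousOn_ofE)⟩, hne1⟩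
  have hexc := deg_excision hadm hN hNU (by
    rintro _ ⟨q, -, rfl⟩ hx h0
    exact hx (hfix q ((zero_iff_Fix T₀ q).1 h0)))
  have hcnt := deg_of_reg hU Idx.isOpen_dom hUd hsm hreg hne0
  have hset : toE '' {q | T q = q} = toE '' K' ∩ (fun x => x - loc T x) ⁻¹' {0} := by
    ext x
    constructor
    · rintro ⟨q, hq, rfl⟩
      have hq' : T q = q := hq
      refine ⟨⟨q, ?_, rfl⟩, (zero_iff_Fix T q).2 hq⟩
      refine interior_subset (hKK' (Or.inl (hKC q ?_)))
      calc dist q (T₀ q) = dist (T q) (T₀ q) := by rw [hq']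
        _ ≤ C := hC q
    · rintro ⟨⟨q, -, rfl⟩, h0⟩
      exact ⟨q, (zero_iff_Fix T q).1 h0, rfl⟩
  have hnc := ncard_eq_of_sign hU Idx.isOpen_dom hUd hsm hreg hσ (by
    rintro _ ⟨q, -, rfl⟩ h0
    exact (hs q ((zero_iff_Fix T q).1 h0)).2)
  have hfin := finite_zeros hU Idx.isOpen_dom hUd hsm hreg
  rw [← Idx.toE_injective.encard_image, hset, ← hfin.cast_ncard_eq, hnc, ← hcnt, hhom, hexc]

/-- if `T₀` has no fixed point then `T` has none -/
theorem Comp.no_fix [Nontrivial (A1.E r)] {T T₀ : A1.X r → A1.X r} (h : Comp T T₀)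
    (h0 : ∀ p, T₀ p ≠ p) (q : A1.X r) : T q ≠ q := by
  intro hq
  have h1 := h.encard (N := ∅) isCompact_empty (empty_subset _) (fun w hw => absurd hw (h0 w))
  have h2 : deg (fun x : A1.E r => x - loc T₀ x) ∅ = 0 :=
    deg_zero ⟨isCompact_empty, ⟨∅, isOpen_empty, subset_rfl, continuousOn_empty _⟩, by simp⟩
      (fun x hx => hx.elim)
  rw [h2, Int.natAbs_zero, Nat.cast_zero, encard_eq_zero] at h1
  exact (h1 ▸ (show q ∈ {q | T q = q} from hq) : q ∈ (∅ : Set (A1.X r)))

/-- if `T₀` has exactly one fixed point, nondegenerate, then `T` has exactly one fixed point -/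
theorem Comp.existsUnique [Nontrivial (A1.E r)] {T T₀ : A1.X r → A1.X r} (h : Comp T T₀)
    {w : A1.X r} (hw : T₀ w = w) (huniq : ∀ w', T₀ w' = w' → w' = w)
    (hs : ∃ V ∈ 𝓝 (toE w), ContDiffOn ℝ 1 (loc T₀) V)
    (hdet : (fderiv ℝ (fun x => x - loc T₀ x) (toE w)).det ≠ 0) : ∃! q, T q = q := by
  obtain ⟨V, hV, hVs⟩ := hs
  have hVd : V ∩ dom r ∈ 𝓝 (toE w) :=
    inter_mem hV (Idx.isOpen_dom.mem_nhds (Idx.toE_mem w))
  obtain ⟨W, hWV, hW, hwW⟩ := mem_nhds_iff.1 hVd
  obtain ⟨ε, hε, hεW⟩ := Metric.nhds_basis_closedBall.mem_iff.1 (hW.mem_nhds hwW)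
  have hNd : Metric.closedBall (toE w) ε ⊆ dom r := fun x hx => (hWV (hεW hx)).2
  have hzero : ∀ x ∈ Metric.closedBall (toE w) ε, x - loc T₀ x = 0 → x = toE w := by
    intro x hx hx0
    have h1 : toE (ofE x : A1.X r) = x := Idx.toE_ofE (hNd hx)
    rw [← h1] at hx0 ⊢
    rw [huniq _ ((zero_iff_Fix T₀ _).1 hx0)]
  have hw0 : toE w - loc T₀ (toE w) = 0 := (zero_iff_Fix T₀ w).2 hw
  have hwi : toE w ∈ interior (Metric.closedBall (toE w) ε) :=
    mem_interior_iff_mem_nhds.2 (Metric.closedBall_mem_nhds _ hε)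
  have hcard := h.encard (N := Metric.closedBall (toE w) ε) (isCompact_closedBall _ _) hNd
    (fun w' hw' => by
      rw [huniq w' hw']
      exact hwi)
  have hdeg := deg_of_reg (f := fun x => x - loc T₀ x) (isCompact_closedBall (toE w) ε) hW hεW
    (contDiffOn_id.sub (hVs.mono fun x hx => (hWV hx).1)) (fun x hx hx0 => by
      rw [hzero x hx hx0]
      exact hdet) (fun x hx hx0 => by
      rw [hzero x (Metric.isClosed_closedBall.frontier_subset hx) hx0] at hx
      exact hx.2 hwi)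
  have h1 : Metric.closedBall (toE w) ε ∩ (fun x => x - loc T₀ x) ⁻¹' {0} = {toE w} := by
    ext x
    constructor
    · rintro ⟨hx, hx0⟩
      exact hzero x hx hx0
    · rintro rfl
      exact ⟨Metric.mem_closedBall_self hε.le, hw0⟩
  have h2 : (cnt (fun x => x - loc T₀ x) (Metric.closedBall (toE w) ε)).natAbs = 1 := by
    unfold cnt
    rw [h1, finsum_mem_singleton]
    unfold jacobianSign
    rcases lt_or_gt_of_ne hdet with h | h
    · rw [sign_neg h]
      decide
    · rw [sign_pos h]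
      decide
  rw [hdeg, h2, Nat.cast_one, encard_eq_one] at hcard
  obtain ⟨q, hq⟩ := hcard
  refine ⟨q, ?_, fun q' hq' => ?_⟩
  · have h4 : q ∈ {q | T q = q} := by
      rw [hq]
      exact mem_singleton q
    exact h4
  · have h4 : q' ∈ {q | T q = q} := hq'
    rw [hq] at h4
    exact h4

end Pool.Agent.ANO5.A2.Idx2
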